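import Mathlib
import Pool.Agent.Results.MP_309968_ag.NonuniformIrrationalRays
import Pool.Agent.N168.BR.Move

set_option autoImplicit false

/-!
# Nef rays with three groups of points whose two real coefficients satisfy a bilinear relation

For a rational number `t = A / B` let `L(t)` be the list of the sides of the squares in the Euclidean
subdivision of the rectangle with sides `t` and `1`, and for a finite sum `t` of rational numbers
let `L(t)` be the union of their lists. For very general points the class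
`3 T H - (T L(t₁), κ L(t₂), L(t₃))` of self-intersection zero, `t₁ < 9`, is nef if the real numbers
`T, κ > 0` satisfy `(9 - t₁) T ^ 2 = t₂ κ ^ 2 + t₃` and `(a t₂ κ + x) (T - a p) = a p ^ 2 v` for some
integers `a, p ≥ 1`, `v` and `x` (`x` prime to `p`) with `κ ≤ a p`,
`a ^ 2 p (9 - t₁) ≤ a t₂ κ + x`, `a ^ 2 p t₂ ≤ a t₂ κ + x ≤ a (9 - t₁) T`. Neither `T` nor `κ` has to
be an integer, and they may generate a field of degree four. The classes can be composed with each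
other and with the classes of `NonuniformIrrationalRays`.

Examples: `3 T H - (T, 2 T - r, 1 ^ c)` with `T = (√(c + 2 r ^ 2) - r) / 2`, `r ≥ 2`, `c ≡ r` modulo
two, `2 r ^ 2 < c ≤ 2 r ^ 2 + 4 r + 1`; and, for every `n`, `√(n + κ ^ 2) H - (κ, 1 ^ n)` for the
solution `0 < κ < 1` of `(κ + x) (√(n + κ ^ 2) / 3 - 1) = v`, for all integers `x`, `v` with
`9 ≤ x ≤ 3 √n - 1` and `x (√n / 3 - 1) < v < (x + 1) (√(n + 1) / 3 - 1)`.
-/

namespace Pool.Agent.Results.MP_309968_ag.BilinearIrrationalRays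

open Pool.Agent.H932R3 Pool.Agent.H350R3 Pool.Agent.H350R3.GR
open Pool.Agent.Results.MP_309968_ag.BoundaryRays (MultGE curveClasses curvCone cone_le
  noForm_ext degree_pos mult_pos)
open Pool.Agent.Results.MP_309968_ag.NonuniformIrrationalRays (Group Group.props group_ones
  sum_sq_mul)
open Pool.Agent.TH207.NC Pool.Agent.N168.BR

/-- `Sharp L c`: the class `c H - ∑ L_j E_j` is obtained from the classes
`3 T H - (T L₁, κ L₂, L₃)`, where `L₁`, `L₂`, `L₃` are groups with the sums `t₁ < 9`, `t₂`, `t₃`, and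
the positive numbers `T`, `κ` satisfy `(9 - t₁) T ^ 2 = t₂ κ ^ 2 + t₃` and the bilinear relation
`(a t₂ κ + x) (T - a p) = a p ^ 2 v` with integers `a, p ≥ 1`, `v`, and `x` prime to `p`, such that
`κ ≤ a p`, `a ^ 2 p (9 - t₁) ≤ a t₂ κ + x` and `a ^ 2 p t₂ ≤ a t₂ κ + x ≤ a (9 - t₁) T`, and from the
classes `Sharp L c` of the file `NonuniformIrrationalRays`, by scaling and by replacing a coefficient
`w` by the coefficients of a class `w H - ∑ L'_j E_j` with `Sharp L' w`. -/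
inductive Sharp : List ℝ → ℝ → Prop
  | old (L : List ℝ) (c : ℝ) : NonuniformIrrationalRays.Sharp L c → Sharp L c
  | bilinear (t₁ t₂ t₃ T κ : ℝ) (L₁ L₂ L₃ : List ℝ) (a p : ℕ) (x v : ℤ) :
      Group t₁ L₁ → Group t₂ L₂ → Group t₃ L₃ → t₁ < 9 → 1 ≤ a → 1 ≤ p → IsCoprime x (p : ℤ) →
      0 < κ → κ ≤ a * p → (9 - t₁) * T ^ 2 = t₂ * κ ^ 2 + t₃ →
      (a * t₂ * κ + x) * (T - a * p) = a * p ^ 2 * v →
      a ^ 2 * p * (9 - t₁) ≤ a * t₂ * κ + x → a ^ 2 * p * t₂ ≤ a * t₂ * κ + x →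
      a * t₂ * κ + x ≤ a * (9 - t₁) * T →
      Sharp (L₁.map (fun y => T * y) ++ (L₂.map (fun y => κ * y) ++ L₃)) (3 * T)
  | scale (a c : ℝ) (L : List ℝ) : 0 < a → Sharp L c → Sharp (L.map fun t => a * t) (a * c)
  | glue (c w : ℝ) (L₁ L₂ L' : List ℝ) : Sharp (L₁ ++ [w] ++ L₂) c → Sharp L' w →
      Sharp (L₁ ++ L' ++ L₂) c

theorem T_pos {t₁ t₂ T κ : ℝ} {a p : ℕ} {x : ℤ} (h9 : t₁ < 9) (ha : 1 ≤ a) (hp : 1 ≤ p)
    (h4 : a ^ 2 * p * (9 - t₁) ≤ a * t₂ * κ + x) (h6 : a * t₂ * κ + x ≤ a * (9 - t₁) * T) :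
    0 < T := by
  have ha' : (1 : ℝ) ≤ a := by exact_mod_cast ha
  have hp' : (1 : ℝ) ≤ p := by exact_mod_cast hp
  have hs : 0 < 9 - t₁ := by linarith
  have e1 : 0 < (a : ℝ) ^ 2 * p * (9 - t₁) := by positivity
  have e2 : 0 < (a : ℝ) * (9 - t₁) * T := by linarith
  exact (mul_pos_iff_of_pos_left (by positivity)).1 e2

theorem bilinear_nf {t₁ t₂ t₃ T κ : ℝ} {L₁ L₂ L₃ : List ℝ} (h1 : Group t₁ L₁) (h2 : Group t₂ L₂)
    (h3 : Group t₃ L₃) (h9 : t₁ < 9) {a p : ℕ} {x v : ℤ} (ha : 1 ≤ a) (hp : 1 ≤ p)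
    (hxp : IsCoprime x (p : ℤ)) (hκ : 0 < κ) (hκ' : κ ≤ a * p)
    (hsq : (9 - t₁) * T ^ 2 = t₂ * κ ^ 2 + t₃)
    (hrel : (a * t₂ * κ + x) * (T - a * p) = a * p ^ 2 * v)
    (h4 : a ^ 2 * p * (9 - t₁) ≤ a * t₂ * κ + x) (h5 : a ^ 2 * p * t₂ ≤ a * t₂ * κ + x)
    (h6 : a * t₂ * κ + x ≤ a * (9 - t₁) * T) :
    NB.Nf ℂ (L₁.map (fun y => T * y) ++ (L₂.map (fun y => κ * y) ++ L₃)).get (3 * T) := by
  obtain ⟨p1, -, -, q1⟩ := h1.props
  obtain ⟨p2, -, -, q2⟩ := h2.props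
  obtain ⟨p3, -, -, q3⟩ := h3.props
  have hT : 0 < T := T_pos h9 ha hp h4 h6
  have hs : 0 < 9 - t₁ := by linarith
  have ha' : (1 : ℝ) ≤ a := by exact_mod_cast ha
  have hp' : (1 : ℝ) ≤ p := by exact_mod_cast hp
  have ha0 : (a : ℝ) ≠ 0 := by linarith
  have hp0 : (p : ℝ) ≠ 0 := by linarith
  have hpp : (0 : ℝ) < p := by linarith
  obtain ⟨m, hm⟩ : ∃ m : ℝ, m = (a * t₂ * κ + x) / p := ⟨_, rfl⟩
  have hm1 : p * m = a * t₂ * κ + x := by rw [hm]; field_simp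
  obtain ⟨μ, hμ⟩ : ∃ μ : ℝ, μ = (m / a - 1) / a := ⟨_, rfl⟩
  have hmμ : m = a * (a * μ + 1) := by rw [hμ]; field_simp; ring
  have h7 := Tr.bilinear (s := 9 - t₁) (μ := μ) (c := 1) (t := t₂) (c' := 1) (T := T) (κ := κ)
    (m := m) (L := L₃) (L' := L₂) hs p2 one_pos (a : ℤ) 1 (p : ℤ) x v (by exact_mod_cast ha)
    isCoprime_one_right (by exact_mod_cast hp) hxp (by push_cast; exact hmμ)
    (by push_cast; exact hm1)
    (by
      push_cast
      refine mul_left_cancel₀ hp0 ?_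
      have e : (p : ℝ) * (m * (T - a * p)) = (p * m) * (T - a * p) := by ring
      rw [e, hm1, hrel]
      ring)
    (by
      push_cast
      refine le_of_mul_le_mul_left ?_ hpp
      rw [hm1]
      linarith)
    (by
      push_cast
      refine le_of_mul_le_mul_left ?_ hpp
      rw [hm1]
      linarith)
    (by push_cast; rw [hm1]; linarith) hκ.le (by push_cast; exact hκ') (q2 _) (by
      have e : (9 - t₁) * T ^ 2 - t₂ * κ ^ 2 = t₃ := by linarith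
      rw [e]
      exact q3 _)
  have h8 : Tr (9 - t₁) μ (L₂.map (fun y => κ * y) ++ L₃) T := by simpa using h7
  have h5' := Tr.add (s := 9 - t₁) (μ := μ) (t := t₁) (c := T) (c' := 1) (by linarith) one_pos
    (q1 _) h8
  rw [sub_add_cancel] at h5'
  simp only [div_one] at h5'
  exact h5'.nf

theorem Sharp.props {L : List ℝ} {c : ℝ} (h : Sharp L c) :
    0 < c ∧ (∀ t ∈ L, 0 < t) ∧ (L.map fun t => t ^ 2).sum = c ^ 2 ∧ NB.Nf ℂ L.get c := by
  induction h with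
  | old L c h => exact h.props
  | bilinear t₁ t₂ t₃ T κ L₁ L₂ L₃ a p x v h1 h2 h3 h9 ha hp hxp hκ hκ' hsq hrel h4 h5 h6 =>
    have hT : 0 < T := T_pos h9 ha hp h4 h6
    refine ⟨by linarith, ?_, ?_, bilinear_nf h1 h2 h3 h9 ha hp hxp hκ hκ' hsq hrel h4 h5 h6⟩
    · intro t ht
      simp only [List.mem_append, List.mem_map] at ht
      rcases ht with ⟨x, hx, rfl⟩ | ⟨x, hx, rfl⟩ | ht
      · exact mul_pos hT (h1.props.2.1 x hx)
      · exact mul_pos hκ (h2.props.2.1 x hx)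
      · exact h3.props.2.1 t ht
    · rw [List.map_append, List.map_append, List.sum_append, List.sum_append, sum_sq_mul,
        sum_sq_mul, h1.props.2.2.1, h2.props.2.2.1, h3.props.2.2.1]
      linarith
  | scale a c L ha _ ih =>
    obtain ⟨h1, h2, h3, h4⟩ := ih
    refine ⟨mul_pos ha h1, ?_, ?_, nf_list_scale ha h4⟩
    · intro t ht
      obtain ⟨u, hu, rfl⟩ := List.mem_map.1 ht
      exact mul_pos ha (h2 u hu)
    · rw [sum_sq_mul, h3, mul_pow]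
  | glue c w L₁ L₂ L' _ _ ih ih' =>
    obtain ⟨h1, h2, h3, h4⟩ := ih
    obtain ⟨h1', h2', h3', h4'⟩ := ih'
    have hL₁ : ∀ t ∈ L₁, 0 < t := fun t ht => h2 t (by simp [ht])
    have hL₂ : ∀ t ∈ L₂, 0 < t := fun t ht => h2 t (by simp [ht])
    refine ⟨h1, ?_, ?_, nf_list_glue hL₁ hL₂ h1' h4 h4'⟩
    · intro t ht
      simp only [List.mem_append] at ht
      rcases ht with (ht | ht) | ht
      · exact hL₁ t ht
      · exact h2' t ht
      · exact hL₂ t ht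
    · rw [← h3]
      simp only [List.map_append, List.sum_append, h3', List.map_cons, List.map_nil,
        List.sum_cons, List.sum_nil, add_zero]

theorem sharp_bilinear {j k r a p : ℕ} {x v : ℤ} {T κ : ℝ} (hj : j ≤ 8) (ha : 1 ≤ a)
    (hp : 1 ≤ p) (hxp : IsCoprime x (p : ℤ)) (hκ : 0 < κ) (hκ' : κ ≤ a * p)
    (hsq : (9 - j) * T ^ 2 = k * κ ^ 2 + r)
    (hrel : (a * k * κ + x) * (T - a * p) = a * p ^ 2 * v)
    (h4 : a ^ 2 * p * (9 - j) ≤ a * k * κ + x) (h5 : a ^ 2 * p * k ≤ a * k * κ + x)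
    (h6 : a * k * κ + x ≤ a * (9 - j) * T) :
    Sharp (List.replicate j T ++ (List.replicate k κ ++ List.replicate r 1)) (3 * T) := by
  have hj' : (j : ℝ) ≤ 8 := by exact_mod_cast hj
  have h := Sharp.bilinear j k r T κ _ _ _ a p x v (group_ones j) (group_ones k) (group_ones r)
    (by linarith) ha hp hxp hκ hκ' hsq hrel h4 h5 h6
  simpa using h

/-- the quadratic family -/
theorem sharp_quadratic {r c : ℕ} (hr : 2 ≤ r) (hpar : 2 ∣ c + r) (h1 : 2 * r ^ 2 < c)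
    (h2 : c ≤ 2 * r ^ 2 + 4 * r + 1) :
    Sharp ([(√(c + 2 * r ^ 2 : ℝ) - r) / 2] ++ ([√(c + 2 * r ^ 2 : ℝ) - 2 * r] ++
      List.replicate c 1)) (3 * ((√(c + 2 * r ^ 2 : ℝ) - r) / 2)) := by
  obtain ⟨R, hR⟩ : ∃ R : ℝ, R = √(c + 2 * r ^ 2 : ℝ) := ⟨_, rfl⟩
  rw [← hR]
  have hR0 : 0 ≤ R := by rw [hR]; exact Real.sqrt_nonneg _
  have hRR : R ^ 2 = c + 2 * r ^ 2 := by rw [hR]; exact Real.sq_sqrt (by positivity)
  have hr' : (2 : ℝ) ≤ r := by exact_mod_cast hr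
  have h1' : 2 * (r : ℝ) ^ 2 < c := by exact_mod_cast h1
  have h2' : (c : ℝ) ≤ 2 * r ^ 2 + 4 * r + 1 := by exact_mod_cast h2
  have hR1 : 2 * (r : ℝ) < R := by
    by_contra hcon
    push Not at hcon
    nlinarith
  have hR2 : R ≤ 2 * r + 1 := by
    by_contra hcon
    push Not at hcon
    nlinarith
  obtain ⟨e, he⟩ := hpar
  have he' : (c : ℝ) + r = 2 * e := by exact_mod_cast he
  obtain ⟨f, hf⟩ : ∃ f : ℤ, (2 : ℤ) * f = r ^ 2 - r := by
    have h3 := Int.even_mul_pred_self (r : ℤ)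
    obtain ⟨f, hf⟩ := h3.two_dvd
    exact ⟨f, by rw [← hf]; ring⟩
  have hf' : 2 * (f : ℝ) = r ^ 2 - r := by exact_mod_cast hf
  have h := sharp_bilinear (j := 1) (k := 1) (r := c) (a := 1) (p := 1) (x := 3 * r + 2)
    (v := e + f - 2 * r - 2) (T := (R - r) / 2) (κ := R - 2 * r) (by norm_num) le_rfl le_rfl
    (by simpa using isCoprime_one_right) (by linarith) (by push_cast; linarith)
    (by push_cast; linear_combination hRR)
    (by
      push_cast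
      linear_combination (1 / 2 : ℝ) * hRR + (1 / 2 : ℝ) * he' - (1 / 2 : ℝ) * hf')
    (by push_cast; linarith) (by push_cast; linarith) (by push_cast; linarith)
  simpa using h

/-- one point with a smaller coefficient: existence of the solutions of the bilinear relation -/
theorem sharp_one {n : ℕ} {x v : ℤ} (h1 : 9 ≤ x) (h2 : (x : ℝ) + 1 ≤ 3 * √n)
    (h3 : x * (√n / 3 - 1) < v) (h4 : (v : ℝ) < (x + 1) * (√(n + 1) / 3 - 1)) :
    ∃ κ : ℝ, 0 < κ ∧ κ < 1 ∧ (κ + x) * (√(n + κ ^ 2) / 3 - 1) = v ∧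
      Sharp ([κ] ++ List.replicate n 1) √(n + κ ^ 2) := by
  obtain ⟨g, hg⟩ : ∃ g : ℝ → ℝ, g = fun κ => (κ + x) * (√(n + κ ^ 2) / 3 - 1) := ⟨_, rfl⟩
  have hcont : Continuous g := by
    rw [hg]
    fun_prop
  have hg0 : g 0 < v := by
    rw [hg]
    simp only
    rw [zero_add]
    have e : √((n : ℝ) + 0 ^ 2) = √n := by norm_num
    rw [e]
    exact h3
  have hg1 : (v : ℝ) < g 1 := by
    rw [hg]
    simp only
    rw [one_pow, add_comm (1 : ℝ) (x : ℝ)]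
    exact h4
  obtain ⟨κ, hκ, hκv⟩ := intermediate_value_Icc (zero_le_one' ℝ) hcont.continuousOn
    (show (v : ℝ) ∈ Set.Icc (g 0) (g 1) from ⟨hg0.le, hg1.le⟩)
  have hκ0 : 0 < κ := by
    refine lt_of_le_of_ne hκ.1 fun h => ?_
    rw [← h] at hκv
    linarith
  have hκ1 : κ < 1 := by
    refine lt_of_le_of_ne hκ.2 fun h => ?_
    rw [h] at hκv
    linarith
  rw [hg] at hκv
  simp only at hκv
  have hx : (9 : ℝ) ≤ x := by exact_mod_cast h1
  have hsq : √((n : ℝ) + κ ^ 2) ^ 2 = n + κ ^ 2 := Real.sq_sqrt (by positivity)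
  have hmono : √(n : ℝ) ≤ √((n : ℝ) + κ ^ 2) := Real.sqrt_le_sqrt (by nlinarith)
  refine ⟨κ, hκ0, hκ1, hκv, ?_⟩
  have h := sharp_bilinear (j := 0) (k := 1) (r := n) (a := 1) (p := 1) (x := x) (v := v)
    (T := √((n : ℝ) + κ ^ 2) / 3) (κ := κ) (by norm_num) le_rfl le_rfl
    (by simpa using isCoprime_one_right) hκ0 (by push_cast; linarith)
    (by push_cast; linear_combination hsq)
    (by push_cast; linear_combination hκv)
    (by push_cast; linarith) (by push_cast; linarith) (by push_cast; linarith)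
  have e : 3 * (√((n : ℝ) + κ ^ 2) / 3) = √((n : ℝ) + κ ^ 2) := by ring
  rw [e] at h
  simpa using h

theorem result :
    -- the three groups
    (∀ (t₁ t₂ t₃ T κ : ℝ) (L₁ L₂ L₃ : List ℝ) (a p : ℕ) (x v : ℤ),
      Group t₁ L₁ → Group t₂ L₂ → Group t₃ L₃ → t₁ < 9 → 1 ≤ a → 1 ≤ p → IsCoprime x (p : ℤ) →
      0 < κ → κ ≤ a * p → (9 - t₁) * T ^ 2 = t₂ * κ ^ 2 + t₃ →
      (a * t₂ * κ + x) * (T - a * p) = a * p ^ 2 * v →
      a ^ 2 * p * (9 - t₁) ≤ a * t₂ * κ + x → a ^ 2 * p * t₂ ≤ a * t₂ * κ + x →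
      a * t₂ * κ + x ≤ a * (9 - t₁) * T →
      Sharp (L₁.map (fun y => T * y) ++ (L₂.map (fun y => κ * y) ++ L₃)) (3 * T)) ∧
    -- a quadratic family
    (∀ r c : ℕ, 2 ≤ r → 2 ∣ c + r → 2 * r ^ 2 < c → c ≤ 2 * r ^ 2 + 4 * r + 1 →
      Sharp ([(√(c + 2 * r ^ 2 : ℝ) - r) / 2] ++ ([√(c + 2 * r ^ 2 : ℝ) - 2 * r] ++
        List.replicate c 1)) (3 * ((√(c + 2 * r ^ 2 : ℝ) - r) / 2))) ∧
    -- one point with a smaller coefficient
    (∀ (n : ℕ) (x v : ℤ), 9 ≤ x → (x : ℝ) + 1 ≤ 3 * √n → x * (√n / 3 - 1) < v →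
      (v : ℝ) < (x + 1) * (√(n + 1) / 3 - 1) →
      ∃ κ : ℝ, 0 < κ ∧ κ < 1 ∧ (κ + x) * (√(n + κ ^ 2) / 3 - 1) = v ∧
        Sharp ([κ] ++ List.replicate n 1) √(n + κ ^ 2)) ∧
    -- all these classes are nef
    ∀ n : ℕ, ∃ f : ℕ → MvPolynomial (Fin n × Fin 2) ℂ, (∀ k, f k ≠ 0) ∧
      ∀ p : Fin n → Fin 2 → ℂ,
        (∀ k, MvPolynomial.eval (fun q : Fin n × Fin 2 => p q.1 q.2) (f k) ≠ 0) →
        ∀ (L : List ℝ) (c : ℝ), Sharp L c →
          (L.map fun t => t ^ 2).sum = c ^ 2 ∧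
          ∀ g : Fin L.length → Fin n, Function.Injective g →
            ∀ x ∈ curvCone p, ∑ j, L.get j * x.2 (g j) ≤ c * x.1 := by
  classical
  refine ⟨fun t₁ t₂ t₃ T κ L₁ L₂ L₃ a p x v => Sharp.bilinear t₁ t₂ t₃ T κ L₁ L₂ L₃ a p x v,
    fun r c hr hpar h1 h2 => sharp_quadratic hr hpar h1 h2,
    fun n x v h1 h2 h3 h4 => sharp_one h1 h2 h3 h4, fun n => ?_⟩
  obtain ⟨f, hf, hf'⟩ := exists_conds_all (K := ℂ) n
  refine ⟨f, hf, fun p hp L c hS => ?_⟩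
  obtain ⟨_, hpos, hsq, hNf⟩ := hS.props
  refine ⟨hsq, fun g hg => ?_⟩
  refine cone_le (fun j => (hpos _ (List.get_mem L j)).le) fun F e m hF he hF0 hm => ?_
  by_contra hcon
  push Not at hcon
  obtain ⟨x, hx⟩ := hNf (fun j => m (g j)) e (by linarith)
  refine hF0 (hf' p hp e m ⟨_, noForm_ext hg hx⟩ F hF ?_)
  unfold ptJ vIdeal
  rw [Ideal.mem_iInf]
  intro i
  exact mem_of_support (p := p i) (hm i)

end Pool.Agent.Results.MP_309968_ag.BilinearIrrationalRays
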