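import Mathlib
import Pool.Agent.N108.ZZ.NegSeven

set_option autoImplicit false

/-!
# The closed cone of curves: only curves with `K C ≥ 7` can be missing

Let `X` be the blow-up of the complex projective plane at `n ≥ 4` very general points. The closed
cone of curves is contained in (so it is equal to) the closed convex cone generated by the positive
cone, by the classes of the `(-1)`-curves, and by the classes of the irreducible curves `C` with
`C ^ 2 = -1` and `K C ≥ 7`, or `C ^ 2 ≤ -2` and `K C ≥ 8`, whose class is carried by finitely many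
quadratic transformations to the
class `(e; u)` of an irreducible curve at other very general points, which is standard (the degree
is at least the sum of any three multiplicities) and in which the sum of the multiplicities
`u i ≥ 2` is at least `3 e + 6`.
-/

namespace Pool.Agent.Results.MP_309968_ag.CanonicalDegreeSeven

open MvPolynomial Pool.Agent.TH167 Pool.Agent.TH167.SHDefs

/-- The classes (in the coordinates degree, multiplicities) of the irreducible curves on the
blow-up of the plane at the points `p i = (p i 0 : p i 1 : 1)`: the class `(d; m)` of the proper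
transform of an irreducible plane curve of degree `d` whose multiplicity at `p i` is exactly `m i`,
and the classes `(0; -e_i)` of the exceptional curves. -/
def curveClasses {n : ℕ} (p : Fin n → Fin 2 → ℂ) : Set (ℝ × (Fin n → ℝ)) :=
  {v : ℝ × (Fin n → ℝ) | ∃ (F : MvPolynomial (Fin 3) ℂ) (d : ℕ) (m : Fin n → ℕ),
      Curve p F d m ∧ v = ((d : ℝ), fun i => (m i : ℝ))} ∪
    {v : ℝ × (Fin n → ℝ) | ∃ i : Fin n,
      v = ((0 : ℝ), (Pi.single i (-1 : ℝ) : Fin n → ℝ))}

/-- The classes of the `(-1)`-curves. -/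
def minusOneClasses {n : ℕ} (p : Fin n → Fin 2 → ℂ) : Set (ℝ × (Fin n → ℝ)) :=
  {v | v ∈ curveClasses p ∧ v.1 ^ 2 - ∑ i, v.2 i ^ 2 = -1 ∧ -3 * v.1 + ∑ i, v.2 i = -1}

/-- The positive cone. -/
def positive (n : ℕ) : Set (ℝ × (Fin n → ℝ)) := {v | 0 ≤ v.1 ∧ ∑ i, v.2 i ^ 2 ≤ v.1 ^ 2}

/-- The class is standard. -/
def Standard {n : ℕ} (d : ℕ) (w : Fin n → ℕ) : Prop :=
  ∀ i j k : Fin n, i ≠ j → i ≠ k → j ≠ k → w i + w j + w k ≤ d

/-- Classes `(d; m)` of irreducible curves `C` with `C ^ 2 < 0`, `K C ≥ 7`, `K C ≥ 8` if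
`C ^ 2 ≤ - 2`, carried by quadratic
transformations to a standard class `(e; u)` of an irreducible curve at other points (outside of the
same hypersurfaces `Z k`) with `∑_{u i ≥ 2} u i ≥ 3 e + 6`. -/
def furtherClasses {n : ℕ} (Z : ℕ → MvPolynomial (Fin n × Fin 2) ℂ) (p : Fin n → Fin 2 → ℂ) :
    Set (ℝ × (Fin n → ℝ)) :=
  {v | ∃ (F : MvPolynomial (Fin 3) ℂ) (d : ℕ) (m : Fin n → ℕ),
    Curve p F d m ∧ inter d m d m < 0 ∧ 7 ≤ interK d m ∧
    (inter d m d m ≤ -2 → 8 ≤ interK d m) ∧
    (∃ (q : Fin n → Fin 2 → ℂ) (e : ℕ) (u : Fin n → ℕ) (G : MvPolynomial (Fin 3) ℂ),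
      (∀ k, MvPolynomial.eval (fun ij : Fin n × Fin 2 => q ij.1 ij.2) (Z k) ≠ 0) ∧
      Curve q G e u ∧ Relation.ReflTransGen Quadratic (d, m) (e, u) ∧ Standard e u ∧
      3 * e + 6 ≤ ∑ i, if 2 ≤ u i then u i else 0) ∧
    v = ((d : ℝ), fun i => (m i : ℝ))}

/-- The closed convex cone generated by a set. -/
def closedCone {n : ℕ} (S : Set (ℝ × (Fin n → ℝ))) : Set (ℝ × (Fin n → ℝ)) :=
  closure ((Submodule.span {c : ℝ // 0 ≤ c} S : Set (ℝ × (Fin n → ℝ))))

theorem result (n : ℕ) (hn : 4 ≤ n) :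
    ∃ Z : ℕ → MvPolynomial (Fin n × Fin 2) ℂ, (∀ k, Z k ≠ 0) ∧
      ∀ p : Fin n → Fin 2 → ℂ,
        (∀ k, MvPolynomial.eval (fun ij : Fin n × Fin 2 => p ij.1 ij.2) (Z k) ≠ 0) →
        closedCone (curveClasses p) ⊆
          closedCone (minusOneClasses p ∪ positive n ∪ furtherClasses Z p) := by
  obtain ⟨r, rfl⟩ : ∃ r, n = r + 4 := ⟨n - 4, by omega⟩
  obtain ⟨Z, hZ, h⟩ := SH.exists_fam (Fin (r + 4) × Fin 2)
  refine ⟨Z, hZ, fun p hp => closure_mono (Submodule.span_mono ?_)⟩
  rintro v (⟨C, d, w, hC, rfl⟩ | ⟨i, rfl⟩)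
  · by_cases hneg : inter d w d w < 0
    · by_cases hne : MinusOne p C d w
      · refine Or.inl (Or.inl ⟨Or.inl ⟨C, d, w, hC, rfl⟩, ?_, ?_⟩)
        · have h1 := hne.self
          unfold inter at h1
          have h2 : (((d : ℤ) * d - ∑ i, (w i : ℤ) * w i : ℤ) : ℝ) = ((-1 : ℤ) : ℝ) := by rw [h1]
          push_cast at h2
          simp only
          rw [Finset.sum_congr rfl fun i _ => sq (w i : ℝ), sq]
          exact h2
        · have h1 := hne.canonical
          unfold interK at h1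
          have h2 : ((-3 * (d : ℤ) + ∑ i, (w i : ℤ) : ℤ) : ℝ) = ((-1 : ℤ) : ℝ) := by rw [h1]
          push_cast at h2
          exact h2
      · right
        obtain ⟨h1, h0, P1, d1, w1, C1, a1, a2, a3, a4, -, -, -, -, a5⟩ :=
          Pool.Agent.N108.ZZ.neg_seven ((h _).1 hp) hC hneg hne
        exact ⟨C, d, w, hC, hneg, h1, h0, ⟨P1, d1, w1, C1, (h _).2 a1, a2, a3, a4, a5⟩, rfl⟩
    · refine Or.inl (Or.inr ⟨Nat.cast_nonneg d, ?_⟩)
      push Not at hneg
      unfold inter at hneg
      have h2 : (0 : ℝ) ≤ (((d : ℤ) * d - ∑ i, (w i : ℤ) * w i : ℤ) : ℝ) := by exact_mod_cast hneg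
      push_cast at h2
      simp only
      rw [Finset.sum_congr rfl fun i _ => sq (w i : ℝ), sq]
      linarith
  · refine Or.inl (Or.inl ⟨Or.inr ⟨i, rfl⟩, ?_, ?_⟩)
    · simp only
      rw [Finset.sum_eq_single i]
      · rw [Pi.single_eq_same]
        norm_num
      · intro b _ hb
        rw [Pi.single_eq_of_ne hb]
        norm_num
      · intro h1
        exact absurd (Finset.mem_univ i) h1
    · simp only
      rw [Finset.sum_eq_single i]
      · rw [Pi.single_eq_same]
        norm_num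
      · intro b _ hb
        rw [Pi.single_eq_of_ne hb]
      · intro h1
        exact absurd (Finset.mem_univ i) h1

end Pool.Agent.Results.MP_309968_ag.CanonicalDegreeSeven
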